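import Mathlib
import Pool.Agent.X173.AR

/-!
# A Liouville random walk which is not algebraically recurrent

The group is abelian (the direct sum of countably many copies of `ℤ`), so that every
nondegenerate random walk on it is Liouville (Choquet-Deny, proved below); for the symmetric step
distribution `μ(± e_k) = 3 / (2 (k+3) (k+4))` the walk is not algebraically recurrent.
-/

set_option autoImplicit false

namespace Pool.Agent.Results.MP_a29a94_pr.AbelianLiouville

open MeasureTheory Finset Pool.Agent.X173.AR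
open scoped ENNReal

/-- `f` is `μ`-harmonic: `f(g) = ∑_h μ(h) f(gh)` for all `g`. -/
def Harmonic {G : Type} [Group G] (μ : PMF G) (f : G → ℝ) : Prop :=
  ∀ g, f g = ∑' h, (μ h).toReal * f (g * h)

/-- The `μ`-random walk is Liouville: every bounded `μ`-harmonic function is constant. -/
def Liouville (G : Type) [Group G] (μ : PMF G) : Prop :=
  ∀ f : G → ℝ, (∃ C, ∀ g, |f g| ≤ C) → Harmonic μ f → ∃ c, ∀ g, f g = c

section ChoquetDeny

variable {G : Type} [CommGroup G] (μ : PMF G)

omit [CommGroup G] in
lemma hasSum_p : HasSum (fun h => (μ h).toReal) 1 := by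
  have h1 : ∑' h, μ h ≠ ∞ := by rw [μ.tsum_coe]; exact ENNReal.one_ne_top
  have h2 := ENNReal.hasSum_toReal h1
  rw [← ENNReal.tsum_toReal_eq (fun a => ENNReal.ne_top_of_tsum_ne_top h1 a), μ.tsum_coe,
    ENNReal.toReal_one] at h2
  exact h2

variable {μ}

lemma summable_of_bdd {f : G → ℝ} {C : ℝ} (hC : ∀ g, |f g| ≤ C) (g : G) :
    Summable (fun h => (μ h).toReal * f (g * h)) := by
  refine Summable.of_norm_bounded (g := fun h => C * (μ h).toReal)
    ((hasSum_p μ).summable.mul_left C) (fun h => ?_)
  rw [Real.norm_eq_abs, abs_mul, abs_of_nonneg ENNReal.toReal_nonneg, mul_comm]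
  exact mul_le_mul_of_nonneg_right (hC _) ENNReal.toReal_nonneg

lemma le_of_harmonic {f : G → ℝ} {C : ℝ} (hC : ∀ g, |f g| ≤ C) (hf : Harmonic μ f) {s : G}
    (hs : s ∈ μ.support) (g : G) : f (g * s) ≤ f g := by
  set p := (μ s).toReal with hp
  have hp0 : 0 < p := by
    rw [hp, ENNReal.toReal_pos_iff]
    exact ⟨pos_iff_ne_zero.2 ((PMF.mem_support_iff _ _).1 hs), lt_of_le_of_lt (μ.coe_le_one s)
      ENNReal.one_lt_top⟩
  let d : G → ℝ := fun g => f (g * s) - f g
  have hd : ∀ g, HasSum (fun h => (μ h).toReal * d (g * h)) (d g) := by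
    intro g
    have h1 := (summable_of_bdd (μ := μ) hC (g * s)).hasSum
    have h2 := (summable_of_bdd (μ := μ) hC g).hasSum
    rw [← hf] at h1 h2
    have h3 := h1.sub h2
    have h4 : (fun h => (μ h).toReal * d (g * h)) =
        fun h => (μ h).toReal * f (g * s * h) - (μ h).toReal * f (g * h) := by
      funext h
      simp only [d]
      rw [mul_sub, mul_right_comm]
    rw [h4]
    exact h3
  have hdb : ∀ g, d g ≤ 2 * C := by
    intro g
    have h1 := abs_le.1 (hC (g * s))
    have h2 := abs_le.1 (hC g)
    simp only [d]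
    linarith [h1.2, h2.1]
  have hbdd : BddAbove (Set.range d) := ⟨2 * C, by rintro _ ⟨g, rfl⟩; exact hdb g⟩
  set M := ⨆ g, d g with hM
  have hdM : ∀ g, d g ≤ M := fun g => le_ciSup hbdd g
  have hstep : ∀ g, p * (M - d (g * s)) ≤ M - d g := by
    intro g
    have h1 : HasSum (fun h => (μ h).toReal * (M - d (g * h))) (M - d g) := by
      have h2 := ((hasSum_p μ).mul_right M).sub (hd g)
      rw [one_mul] at h2
      have h3 : (fun h => (μ h).toReal * (M - d (g * h))) =
          fun h => (μ h).toReal * M - (μ h).toReal * d (g * h) := by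
        funext h
        ring
      rw [h3]
      exact h2
    exact le_hasSum h1 s (fun h _ => mul_nonneg ENNReal.toReal_nonneg (by linarith [hdM (g * h)]))
  have hiter : ∀ (j : ℕ) g, M - d (g * s ^ j) ≤ (M - d g) * (p⁻¹) ^ j := by
    intro j
    induction j with
    | zero => intro g; simp
    | succ j ih =>
      intro g
      have h1 := hstep (g * s ^ j)
      have h2 := ih g
      rw [pow_succ, pow_succ, ← mul_assoc, ← mul_assoc]
      have h3 : M - d (g * s ^ j * s) ≤ (M - d (g * s ^ j)) * p⁻¹ := by
        rw [← div_eq_mul_inv, le_div_iff₀ hp0]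
        linarith
      exact h3.trans (mul_le_mul_of_nonneg_right h2 (inv_nonneg.2 hp0.le))
  have htel : ∀ (k : ℕ) g, ∑ j ∈ range k, d (g * s ^ j) = f (g * s ^ k) - f g := by
    intro k g
    induction k with
    | zero => simp
    | succ k ih =>
      rw [sum_range_succ, ih]
      simp only [d]
      rw [pow_succ, mul_assoc]
      ring
  have hkM : ∀ k : ℕ, (k : ℝ) * M ≤ 2 * C + 1 := by
    intro k
    set Q := ∑ j ∈ range k, (p⁻¹) ^ j with hQ
    have hQ0 : 0 ≤ Q := sum_nonneg (fun j _ => pow_nonneg (inv_nonneg.2 hp0.le) j)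
    have hlt : M - 1 / (Q + 1) < ⨆ g, d g := by
      rw [← hM]
      have : 0 < 1 / (Q + 1) := by positivity
      linarith
    obtain ⟨g, hg⟩ := exists_lt_of_lt_ciSup hlt
    have h1 : ∑ j ∈ range k, (M - d (g * s ^ j)) ≤ (M - d g) * Q := by
      rw [hQ, mul_sum]
      exact sum_le_sum (fun j _ => hiter j g)
    have h2 : (M - d g) * Q ≤ 1 := by
      have h3 : M - d g ≤ 1 / (Q + 1) := by linarith
      calc (M - d g) * Q ≤ 1 / (Q + 1) * Q := mul_le_mul_of_nonneg_right h3 hQ0
        _ ≤ 1 := by
          rw [div_mul_eq_mul_div, one_mul, div_le_one (by positivity)]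
          linarith
    rw [sum_sub_distrib, htel, sum_const, card_range, nsmul_eq_mul] at h1
    have h3 := abs_le.1 (hC (g * s ^ k))
    have h4 := abs_le.1 (hC g)
    linarith [h3.2, h4.1]
  have hM0 : M ≤ 0 := by
    by_contra hpos
    push Not at hpos
    obtain ⟨k, hk⟩ := exists_nat_gt ((2 * C + 1) / M)
    rw [div_lt_iff₀ hpos] at hk
    linarith [hkM k]
  have := hdM g
  simp only [d] at this
  linarith

/-- **Choquet-Deny** for countable abelian groups. -/
theorem liouville_comm (hμ : Subgroup.closure μ.support = ⊤) : Liouville G μ := by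
  rintro f ⟨C, hC⟩ hf
  have hneg : Harmonic μ (fun g => - f g) := by
    intro g
    change - f g = ∑' h, (μ h).toReal * (- f (g * h))
    rw [hf g, ← tsum_neg]
    apply tsum_congr
    intro h
    ring
  have hCneg : ∀ g, |(- f g)| ≤ C := fun g => by rw [abs_neg]; exact hC g
  have heq : ∀ s ∈ μ.support, ∀ g, f (g * s) = f g := by
    intro s hs g
    apply le_antisymm
    · exact le_of_harmonic hC hf hs g
    · have := le_of_harmonic hCneg hneg hs g
      linarith
  let K : Subgroup G :=
    { carrier := {x | ∀ g, f (g * x) = f g}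
      mul_mem' := by
        intro x y hx hy g
        rw [← mul_assoc, hy, hx]
      one_mem' := by intro g; rw [mul_one]
      inv_mem' := by
        intro x hx g
        have := hx (g * x⁻¹)
        rw [inv_mul_cancel_right] at this
        exact this.symm }
  have hK : K = ⊤ := by
    rw [eq_top_iff, ← hμ, Subgroup.closure_le]
    intro s hs
    exact heq s hs
  refine ⟨f 1, fun g => ?_⟩
  have hg : g ∈ K := by rw [hK]; trivial
  have := hg 1
  rwa [one_mul] at this

end ChoquetDeny

/-- There are a countable (even abelian and torsion-free) group `G` and a symmetric probability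
measure `μ` on `G` whose support generates `G` such that the `μ`-random walk is Liouville but
`(G, μ)` is not algebraically recurrent. -/
theorem result : ∃ (G : Type) (_ : Group G) (_ : Countable G) (μ : PMF G),
    Admissible G μ ∧ Liouville G μ ∧ ¬ PairAR G μ ∧ (∀ x y : G, x * y = y * x) ∧
      ∀ (x : G) (n : ℕ), 0 < n → x ^ n = 1 → x = 1 := by
  obtain ⟨μ, h1, h2⟩ := exists_not_pairAR (MulEquiv.refl (Multiplicative (ℤ →₀ ℤ)))
  refine ⟨Multiplicative (ℤ →₀ ℤ), inferInstance, ?_, μ, h1, liouville_comm h1.2, h2, mul_comm, ?_⟩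
  · exact inferInstanceAs (Countable (ℤ →₀ ℤ))
  · intro x n hn hx
    have h3 : n • (Multiplicative.toAdd x) = 0 := hx
    have h4 : Multiplicative.toAdd x = 0 := by
      rcases smul_eq_zero.1 h3 with h | h
      · omega
      · exact h
    exact h4

end Pool.Agent.Results.MP_a29a94_pr.AbelianLiouville
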